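import Pool.Agent.N799.DT.Main

/-!
# MP_a812b2_nt: Sarnak's density theorem for all congruence subgroups of `SL(2,ℤ)`

For every `ε > 0` there is a constant `C` such that for EVERY congruence subgroup `Γ` of `SL(2,ℤ)`, of
index `n`, the eigenvalues `1/4 - ν_i ^ 2` of the Laplacian on `Γ \ ℍ` with `ν_i ≥ ε` (with
multiplicity, the eigenvalue `0` included) satisfy `∑ n ^ (2 ν_i) ≤ C n ^ (1 + ε)`.
-/

set_option autoImplicit false

open MeasureTheory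
open scoped MatrixGroups UpperHalfPlane

namespace Pool.Agent.Results.MP_a812b2_nt.DensityTheorem

/-- `f` is a square integrable eigenfunction of the Laplacian `-y² (∂²/∂x² + ∂²/∂y²)` on `Γ \ ℍ`,
with eigenvalue `1/4 - ν²` (the conventions are those of the frozen statement). -/
structure IsEigenfunction (Γ : Subgroup SL(2, ℤ)) (ν : ℝ) (f : ℂ → ℂ) : Prop where
  /-- `f` is smooth on the upper half plane -/
  smooth : ContDiffOn ℝ (⊤ : ℕ∞) f {w : ℂ | 0 < w.im}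
  /-- `f` is `Γ`-invariant -/
  invariant : ∀ γ ∈ Γ, ∀ z : ℍ, f ((γ • z : ℍ) : ℂ) = f (z : ℂ)
  /-- `-y² (f_xx + f_yy) = (1/4 - ν²) f` -/
  laplace : ∀ z : ℍ,
    -((z.im : ℂ) ^ 2) *
      (deriv (fun s : ℝ => deriv (fun t : ℝ => f ((t : ℂ) + (z.im : ℂ) * Complex.I)) s) z.re
        + deriv (fun s : ℝ => deriv (fun t : ℝ => f ((z.re : ℂ) + (t : ℂ) * Complex.I)) s) z.im)
      = ((1 / 4 - ν ^ 2 : ℝ) : ℂ) * f (z : ℂ)
  /-- `f` is square integrable for `dx dy / y²` on every translate of the fundamental domain -/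
  sqIntegrable : ∀ γ : SL(2, ℤ), IntegrableOn (fun w : ℂ => ‖f w‖ ^ 2 / w.im ^ 2)
    ((fun z : ℍ => ((γ • z : ℍ) : ℂ)) '' ModularGroup.fd)

/-- The density theorem for all congruence subgroups: linearly independent square integrable
eigenfunctions `f i` on `Γ \ ℍ` with eigenvalues `1/4 - (ν i)²`, `ε ≤ ν i ≤ 1/2`, satisfy
`∑ i, [SL(2,ℤ) : Γ] ^ (2 ν i) ≤ C [SL(2,ℤ) : Γ] ^ (1 + ε)` with `C` depending only on `ε`; in
particular their number is at most `C [SL(2,ℤ) : Γ] ^ (1 - 2 α + ε)` if all `ν i ≥ α ≥ ε`. -/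
theorem result : ∀ ε : ℝ, 0 < ε → ∃ C : ℝ, 0 < C ∧ ∀ Γ : Subgroup SL(2, ℤ),
    (∃ N : ℕ, 0 < N ∧ CongruenceSubgroup.Gamma N ≤ Γ) →
    ∀ (k : ℕ) (ν : Fin k → ℝ) (f : Fin k → ℂ → ℂ),
      (∀ i, ε ≤ ν i) → (∀ i, ν i ≤ 1 / 2) → (∀ i, IsEigenfunction Γ (ν i) (f i)) →
      LinearIndependent ℂ (fun i => fun z : ℍ => f i z) →
      (∑ i, (Γ.index : ℝ) ^ (2 * ν i) ≤ C * (Γ.index : ℝ) ^ (1 + ε)) ∧
      ∀ α : ℝ, (∀ i, α ≤ ν i) → (k : ℝ) ≤ C * (Γ.index : ℝ) ^ (1 - 2 * α + ε) := by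
  intro ε hε
  obtain ⟨C, hC, h⟩ := Pool.Agent.N799.DT.main ε hε
  refine ⟨C, hC, fun Γ hΓ k ν f hν hν' hf hli => ?_⟩
  have h1 := h Γ hΓ k ν f hν hν'
    (fun i => ⟨(hf i).smooth, (hf i).invariant, (hf i).laplace, (hf i).sqIntegrable⟩) hli
  refine ⟨h1, fun α hα => ?_⟩
  have hn : (1 : ℝ) ≤ Γ.index := by
    obtain ⟨N, hN, hle⟩ := hΓ
    have : NeZero N := ⟨hN.ne'⟩
    have hfin : Γ.FiniteIndex := Subgroup.finiteIndex_of_le hle
    exact_mod_cast Nat.pos_of_ne_zero hfin.index_ne_zero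
  have hn0 : (0 : ℝ) < Γ.index := by linarith
  have h2 : (k : ℝ) * (Γ.index : ℝ) ^ (2 * α) ≤ ∑ i, (Γ.index : ℝ) ^ (2 * ν i) := by
    have : (k : ℝ) * (Γ.index : ℝ) ^ (2 * α) = ∑ _i : Fin k, (Γ.index : ℝ) ^ (2 * α) := by simp
    rw [this]
    exact Finset.sum_le_sum fun i _ =>
      Real.rpow_le_rpow_of_exponent_le hn (by linarith [hα i])
  have h3 := h2.trans h1
  have h4 : (Γ.index : ℝ) ^ (1 + ε) =
      (Γ.index : ℝ) ^ (1 - 2 * α + ε) * (Γ.index : ℝ) ^ (2 * α) := by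
    rw [← Real.rpow_add hn0]; congr 1; ring
  rw [h4, ← mul_assoc] at h3
  exact le_of_mul_le_mul_right h3 (Real.rpow_pos_of_pos hn0 _)

end Pool.Agent.Results.MP_a812b2_nt.DensityTheorem
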