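import Pool.Agent.N41.SE.Count

/-!
# The Laplace eigenvalue of a Maass newform and Selberg's conjecture from sums over primes

Let `f` be a Maass newform of weight `0` for `Γ₀(N)` with nebentypus `χ` (all `N`, all `χ`), with Laplace
eigenvalue `μ = 1/4 - r²`, normalised Hecke eigenvalues `λ(p) = α_p + β_p`, `α_p β_p = χ(p)`, and parity `δ`
(`δ = 0` if `f` is even, `1` if it is odd).  By Selberg's spectral theory and the theory of newforms,
Selberg's conjecture (for all congruence subgroups) says that `μ ≥ 1/4` for all these `f`; the form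
is exceptional if `0 < μ < 1/4`, that is, `r ∈ (0, 1/2)`.

The eigenvalue `μ` is determined by the numbers `λ(p)` (strong multiplicity one).  We show how to read it off.
For `γ > π/2`, all complex `s` and `T > 0` the series

`W(s, T) = ∑_p ∑_{k ≥ 1} (α_p^k + β_p^k) / (k p^{ks}) · e^{iγ k log p / T} / Γ(1 + k log p / T)`

converges absolutely, the weight of each single term tends to `1` for `T → ∞`.  Without any hypothesis on the
zeros of the L-function and without any bound towards the Ramanujan conjecture beyond the trivial one we prove: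

* for every complex `z` with `|Re z| < 1/2`,
  `W(1 + δ - conj z, T) - W(z - δ, T) = m(z) log T + c(z) + O(1/T)`, where `m(z)` is the number of signs
  with `z = ± r` (so `m(z) = 1` if `1/4 - z² = μ` and `z ≠ 0`, `m(0) = 2` if `μ = 1/4`, and `m(z) = 0` otherwise);
* let `V(σ, T)` be the series with `Re(α_p^k + β_p^k)` in place of `α_p^k + β_p^k` (it is `W(σ, T)` if `χ = 1`).
  The number `2` or `0` of the exceptional parameters `± r` is the limit for `T → ∞` of
  `(2 Im V(1/2,T) - Im V(-1-δ,T) + (2 Im Λ + π) Re V(1/2,T) / log T) / π + (Re V(-δ,T) - Re V(1+δ,T)) / log T`,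
  where `Λ = ∫_0^∞ (e^{-u} - e^{iγu} / Γ(1 + u)) du / u`.

So `f` is not exceptional if and only if this combination of four absolutely convergent sums over the primes
tends to `0`, or does so along one sequence; no knowledge of `μ`, of `r` or of the L-function enters.
The first part detects the trivial zeros `-δ ± r` of the L-function `L(s, f)` by its functional equation; the
second part uses that the imaginary part of the limit counts the real zeros of `L(s, f)` to the right of a point: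
there are two more of them on `(-1-δ, 1/2)` than on `(1/2, ∞)` if and only if `r` is real.
-/

set_option autoImplicit false

open UpperHalfPlane MatrixGroups Filter Topology
open scoped ContDiff

namespace Pool.Agent.Results.MP_a812b2_nt.EigenvalueFromPrimes

/-- `φ` is a Maass newform of weight `0` and level `N` with nebentypus `χ`, parity `δ`, Laplace
eigenvalue `μ` and normalised Hecke eigenvalues `lam p`: a nonzero, smooth and bounded function on the
upper half plane, `φ((az + b)/(cz + d)) = χ(d) φ(z)` for the matrices in `Γ₀(N)`, with zero constant term,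
`- y² (φ_xx + φ_yy) = μ φ`, an eigenfunction of all Hecke operators `T_p` (`U_p` if `p ∣ N`),
even or odd, and such that `φ(-1/(Nz))` is a multiple of the form `conj φ(- conj z)`, whose Hecke
eigenvalues are the conjugates.  (All Maass newforms have these properties, by the theory of Atkin, Lehner
and Li; the eigenvalues of cuspidal eigenfunctions are positive.) -/
structure IsMaassNewform (N : ℕ) (χ : DirichletCharacter ℂ N) (δ : ℕ) (φ : ℍ → ℂ) (μ : ℝ)
    (lam : ℕ → ℂ) : Prop where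
  ne_zero : φ ≠ 0
  smooth : ContDiffOn ℝ ∞ (fun ζ : ℂ => φ (ofComplex ζ)) {ζ | 0 < ζ.im}
  invariant : ∀ γ : SL(2, ℤ), γ ∈ CongruenceSubgroup.Gamma0 N → ∀ z : ℍ,
    φ (γ • z) = χ ((γ 1 1 : ℤ) : ZMod N) * φ z
  bounded : ∃ M : ℝ, ∀ z, ‖φ z‖ ≤ M
  cuspidal : ∀ y : ℝ, 0 < y → ∫ x in (0 : ℝ)..1, φ (ofComplex (x + y * Complex.I)) = 0
  pos : 0 < μ
  laplace : ∀ x y : ℝ, 0 < y →
    -(y : ℂ) ^ 2 * (deriv (deriv fun t : ℝ => φ (ofComplex (t + y * Complex.I))) x +
      deriv (deriv fun t : ℝ => φ (ofComplex (x + t * Complex.I))) y) =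
        μ * φ (ofComplex (x + y * Complex.I))
  /-- `p ^ (-1/2) (χ(p) φ(p z) + ∑_{b mod p} φ((z + b) / p)) = lam p * φ(z)` -/
  hecke : ∀ p : ℕ, p.Prime → ∀ z : ℍ,
    χ (p : ZMod N) * φ (ofComplex (p * z)) + ∑ b ∈ Finset.range p, φ (ofComplex ((z + b) / p)) =
      Real.sqrt p * lam p * φ z
  zero_or_one : δ = 0 ∨ δ = 1
  parity : ∀ z : ℍ, φ (ofComplex (-(starRingEnd ℂ) (z : ℂ))) = (-1) ^ δ * φ z
  fricke : ∃ w : ℂ, w ≠ 0 ∧ ∀ z : ℍ,
    φ (ofComplex (-1 / (N * z))) = w * (starRingEnd ℂ) (φ (ofComplex (-(starRingEnd ℂ) (z : ℂ))))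

/-- The power sum `α^k + β^k` in terms of `α + β = l` and `α β = x`. -/
noncomputable def powerSum (l x : ℂ) : ℕ → ℂ
  | 0 => 2
  | 1 => l
  | (k + 2) => l * powerSum l x (k + 1) - x * powerSum l x k

variable {N : ℕ}

/-- The term of `W(s, T)` for the prime `p = x.1` and the exponent `k = x.2 + 1`:
`(α_p^k + β_p^k) / (k p^{sk}) · e^{iγ k log p / T} / Γ(1 + k log p / T)`. -/
noncomputable def term (χ : DirichletCharacter ℂ N) (lam : ℕ → ℂ) (γ : ℝ) (s : ℂ) (T : ℝ)
    (x : Nat.Primes × ℕ) : ℂ :=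
  powerSum (lam x.1) (χ ((x.1 : ℕ) : ZMod N)) (x.2 + 1) /
      ((x.2 + 1) * ((x.1 : ℕ) : ℂ) ^ (s * (x.2 + 1))) *
    (Complex.exp ((γ * ((x.2 + 1) * Real.log (x.1 : ℕ) / T) : ℝ) * Complex.I) /
      (Real.Gamma (1 + (x.2 + 1) * Real.log (x.1 : ℕ) / T) : ℂ))

/-- `W(s, T)`. -/
noncomputable def W (χ : DirichletCharacter ℂ N) (lam : ℕ → ℂ) (γ : ℝ) (s : ℂ) (T : ℝ) : ℂ :=
  ∑' x : Nat.Primes × ℕ, term χ lam γ s T x

/-- The term of `V(σ, T)`, with the real part of `α_p^k + β_p^k`. -/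
noncomputable def realTerm (χ : DirichletCharacter ℂ N) (lam : ℕ → ℂ) (γ σ T : ℝ)
    (x : Nat.Primes × ℕ) : ℂ :=
  (((powerSum (lam x.1) (χ ((x.1 : ℕ) : ZMod N)) (x.2 + 1)).re /
      ((x.2 + 1) * ((x.1 : ℕ) : ℝ) ^ (σ * (x.2 + 1))) : ℝ) : ℂ) *
    (Complex.exp ((γ * ((x.2 + 1) * Real.log (x.1 : ℕ) / T) : ℝ) * Complex.I) /
      (Real.Gamma (1 + (x.2 + 1) * Real.log (x.1 : ℕ) / T) : ℂ))

/-- `V(σ, T)`. -/
noncomputable def V (χ : DirichletCharacter ℂ N) (lam : ℕ → ℂ) (γ σ T : ℝ) : ℂ :=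
  ∑' x : Nat.Primes × ℕ, realTerm χ lam γ σ T x

/-- `Λ = ∫_0^∞ (e^{-u} - e^{iγu} / Γ(1 + u)) du / u`. -/
noncomputable def Lam (γ : ℝ) : ℂ := ∫ u in Set.Ioi (0 : ℝ),
  (Complex.exp (-(u : ℂ)) - Complex.exp ((γ * u : ℝ) * Complex.I) * ((Real.Gamma (1 + u))⁻¹ : ℝ)) / u

/-- `L` is the L-function of the form: it is entire, and for `Re s > 3/2` it is the Euler product
`∏_p (1 - lam(p) p^(-s) + χ(p) p^(-2s))⁻¹`. -/
def IsLFunction (χ : DirichletCharacter ℂ N) (lam : ℕ → ℂ) (L : ℂ → ℂ) : Prop :=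
  Differentiable ℂ L ∧ ∀ s : ℂ, 3 / 2 < s.re → HasProd (fun p : Nat.Primes =>
    (1 - lam p * ((p : ℕ) : ℂ) ^ (-s) + χ ((p : ℕ) : ZMod N) * (((p : ℕ) : ℂ) ^ (-s)) ^ 2)⁻¹) (L s)

/-- The multiplicity of `z` as a zero of `L`. -/
noncomputable def mult (L : ℂ → ℂ) (z : ℂ) : ℤ := (meromorphicOrderAt L z).untop₀

/-- The number of the real zeros of `L` to the right of `σ`, counted with multiplicity. -/
noncomputable def zerosRight (L : ℂ → ℂ) (σ : ℝ) : ℤ := ∑ᶠ x ∈ Set.Ioi σ, mult L ((x : ℝ) : ℂ)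

open Classical in
/-- The number of the signs with `z = ± r`, where `1/4 - r² = μ`. -/
noncomputable def signs (μ : ℝ) (z : ℂ) : ℕ :=
  if 1 / 4 - z ^ 2 = μ then (if z = 0 then 2 else 1) else 0

/-- The combination of the four sums. -/
noncomputable def test (χ : DirichletCharacter ℂ N) (lam : ℕ → ℂ) (δ : ℕ) (γ T : ℝ) : ℝ :=
  (2 * (V χ lam γ (1 / 2) T).im - (V χ lam γ (-1 - δ) T).im +
      (2 * (Lam γ).im + Real.pi) * ((V χ lam γ (1 / 2) T).re / Real.log T)) / Real.pi +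
    ((V χ lam γ (-δ) T).re / Real.log T - (V χ lam γ (1 + δ) T).re / Real.log T)

section bridge

variable {χ : DirichletCharacter ℂ N} {δ : ℕ} {φ : ℍ → ℂ} {μ : ℝ} {lam : ℕ → ℂ}

theorem core (h : IsMaassNewform N χ δ φ μ lam) : Pool.Agent.N41.SE.IsMN N χ δ φ μ lam :=
  ⟨h.ne_zero, h.smooth, h.invariant, h.bounded, h.cuspidal, h.pos, h.laplace, h.hecke, h.parity,
    h.fricke⟩

theorem powerSum_eq (l x : ℂ) (k : ℕ) : powerSum l x k = Pool.Agent.N41.SE.pw l x k := by
  induction k using Nat.strong_induction_on with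
  | _ k ih =>
    match k, ih with
    | 0, _ => rfl
    | 1, _ => rfl
    | (k + 2), ih =>
      rw [powerSum, Pool.Agent.N41.SE.pw, ih (k + 1) (by omega), ih k (by omega)]

theorem term_eq (χ : DirichletCharacter ℂ N) (lam : ℕ → ℂ) (γ : ℝ) (s : ℂ) (T : ℝ)
    (x : Nat.Primes × ℕ) : term χ lam γ s T x =
    Pool.Agent.N41.RM.cterm Pool.Agent.N41.SE.qp
      (fun p : Nat.Primes => Pool.Agent.N41.SE.sat (lam p) (χ ((p : ℕ) : ZMod N))) s γ T x := by
  unfold term Pool.Agent.N41.RM.cterm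
  rw [Pool.Agent.N41.SE.sat_sum, powerSum_eq]
  unfold Pool.Agent.N41.SE.qp
  rw [Complex.ofReal_natCast]

theorem realTerm_eq (χ : DirichletCharacter ℂ N) (lam : ℕ → ℂ) (γ σ T : ℝ)
    (x : Nat.Primes × ℕ) : realTerm χ lam γ σ T x =
    Pool.Agent.N41.SE.vterm lam (fun p => χ (p : ZMod N)) γ σ T x := by
  unfold realTerm Pool.Agent.N41.SE.vterm
  rw [powerSum_eq]

/-- the spectral parameter -/
theorem exists_nu {μ : ℝ} (hμ : 0 < μ) : ∃ ν : ℂ, ν ^ 2 = 1 / 4 - μ ∧ |ν.re| < 1 / 2 ∧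
    (ν.im = 0 ↔ μ ≤ 1 / 4) ∧ (ν = 0 ↔ μ = 1 / 4) := by
  rcases le_or_gt μ (1 / 4) with h | h
  · refine ⟨(Real.sqrt (1 / 4 - μ) : ℂ), ?_, ?_, ?_, ?_⟩
    · rw [← Complex.ofReal_pow, Real.sq_sqrt (by linarith)]
      push_cast
      rfl
    · rw [Complex.ofReal_re, abs_of_nonneg (Real.sqrt_nonneg _), Real.sqrt_lt' (by norm_num)]
      linarith
    · rw [Complex.ofReal_im]
      exact ⟨fun _ => h, fun _ => rfl⟩
    · rw [Complex.ofReal_eq_zero, Real.sqrt_eq_zero (by linarith)]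
      constructor <;> intro h1 <;> linarith
  · have h0 : 0 < Real.sqrt (μ - 1 / 4) := Real.sqrt_pos.2 (by linarith)
    refine ⟨(Real.sqrt (μ - 1 / 4) : ℂ) * Complex.I, ?_, ?_, ?_, ?_⟩
    · rw [mul_pow, Complex.I_sq, ← Complex.ofReal_pow, Real.sq_sqrt (by linarith)]
      push_cast
      ring
    · rw [Complex.re_ofReal_mul, Complex.I_re, mul_zero, abs_zero]
      norm_num
    · rw [Complex.im_ofReal_mul, Complex.I_im, mul_one]
      constructor <;> intro h1
      · exact absurd h1 h0.ne'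
      · linarith
    · rw [mul_eq_zero, Complex.ofReal_eq_zero]
      constructor <;> intro h1
      · rcases h1 with h1 | h1
        · exact absurd h1 h0.ne'
        · exact absurd h1 Complex.I_ne_zero
      · linarith

theorem signs_eq {μ : ℝ} {ν z : ℂ} (hν : ν ^ 2 = 1 / 4 - μ) :
    (signs μ z : ℤ) = (if z = -ν then 1 else 0) + (if z = ν then 1 else 0) := by
  unfold signs
  have h1 : (1 / 4 - z ^ 2 = (μ : ℂ)) ↔ (z = -ν ∨ z = ν) := by
    constructor
    · intro h
      have h2 : (z + ν) * (z - ν) = 0 := by linear_combination -h - hν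
      rcases mul_eq_zero.1 h2 with h3 | h3
      · left; linear_combination h3
      · right; linear_combination h3
    · rintro (h | h)
      · rw [h]; linear_combination -hν
      · rw [h]; linear_combination -hν
  by_cases hz : z = 0
  · subst hz
    by_cases hn : ν = 0
    · rw [if_pos (h1.2 (Or.inr hn.symm)), if_pos rfl, hn]
      simp
    · have hn1 : ¬ ((0 : ℂ) = -ν) := fun h => hn (neg_eq_zero.1 h.symm)
      have hn2 : ¬ ((0 : ℂ) = ν) := fun h => hn h.symm
      rw [if_neg (fun h => (h1.1 h).elim hn1 hn2), if_neg hn1, if_neg hn2]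
      simp
  · by_cases ha : z = -ν
    · have hb : ¬ (z = ν) := by
        intro h
        apply hz
        linear_combination (ha + h) / 2
      rw [if_pos (h1.2 (Or.inl ha)), if_neg hz, if_pos ha, if_neg hb]
      simp
    · by_cases hb : z = ν
      · rw [if_pos (h1.2 (Or.inr hb)), if_neg hz, if_neg ha, if_pos hb]
        simp
      · rw [if_neg (fun h => (h1.1 h).elim ha hb), if_neg ha, if_neg hb]
        simp

theorem signs_real {μ : ℝ} {σ : ℝ} (hσ : 0 < σ) : signs μ (σ : ℂ) =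
    if 1 / 4 - σ ^ 2 = μ then 1 else 0 := by
  have h0 : (σ : ℂ) ≠ 0 := by exact_mod_cast hσ.ne'
  have h1 : (1 / 4 - (σ : ℂ) ^ 2 = (μ : ℂ)) ↔ 1 / 4 - σ ^ 2 = μ := by
    constructor
    · intro h
      have : ((1 / 4 - σ ^ 2 : ℝ) : ℂ) = (μ : ℂ) := by push_cast; exact h
      exact_mod_cast this
    · intro h
      rw [← h]
      push_cast
      rfl
  unfold signs
  by_cases h : 1 / 4 - σ ^ 2 = μ
  · rw [if_pos (h1.2 h), if_neg h0, if_pos h]
  · rw [if_neg (fun h2 => h (h1.1 h2)), if_neg h]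

end bridge

/-- **Main theorem.**  Let `φ` be a Maass newform of level `N`, nebentypus `χ`, parity `δ`, Laplace
eigenvalue `μ` and Hecke eigenvalues `lam p`, and let `γ > π/2`.

* `W(s, T)` and `V(σ, T)` converge absolutely for all complex `s`, real `σ` and `T > 0`.
* There is an L-function `L`, and for every complex `s` and real `σ`
  `W(s, T) = -n (log T - Λ) + ℓ + O(1/T)`, `n` the order of `L` at `s`, `exp ℓ` the leading coefficient, and
  `V(σ, T) = -n (log T - Λ) + log |l| - π i N(σ) + O(1/T)`, `n` the order and `l` the leading coefficient of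
  `L` at `σ`, `N(σ)` the number of the real zeros to the right of `σ`.
* For every complex `z` with `|Re z| < 1/2` there is a number `c` such that
  `W(1 + δ - conj z, T) - W(z - δ, T) = m log T + c + O(1/T)`, where `m = signs μ z` is the number of
  signs with `z = ± r`, `1/4 - r² = μ`.
* The limit of `test` for `T → ∞` is `2` if `μ < 1/4` and `0` if `μ ≥ 1/4`.
* The following are equivalent: `μ ≥ 1/4`; `W(1 + δ - σ, T) - W(σ - δ, T)` has a limit for `T → ∞`, for
  every `σ ∈ (0, 1/2)`; it is bounded along some sequence `T_k → ∞`, for every `σ ∈ (0, 1/2)`;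
  `test` tends to `0`; `test` tends to `0` along some sequence `T_k → ∞`. -/
theorem result (N : ℕ) [NeZero N] (χ : DirichletCharacter ℂ N) (δ : ℕ) (φ : ℍ → ℂ) (μ : ℝ)
    (lam : ℕ → ℂ) (hf : IsMaassNewform N χ δ φ μ lam) (γ : ℝ) (hγ : Real.pi / 2 < γ) :
    (∀ (s : ℂ) (T : ℝ), 0 < T → Summable fun x => ‖term χ lam γ s T x‖) ∧
    (∀ σ T : ℝ, 0 < T → Summable fun x => ‖realTerm χ lam γ σ T x‖) ∧
    (∃ L : ℂ → ℂ, IsLFunction χ lam L ∧
      (∀ s : ℂ, ∃ (n : ℤ) (ℓ : ℂ), meromorphicOrderAt L s = n ∧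
        Complex.exp ℓ = meromorphicTrailingCoeffAt L s ∧
        (fun T : ℝ => W χ lam γ s T - (-n * (Real.log T - Lam γ) + ℓ)) =O[atTop]
          (fun T : ℝ => 1 / T)) ∧
      ∀ σ : ℝ, (fun T : ℝ => V χ lam γ σ T - (-(mult L (σ : ℂ)) * (Real.log T - Lam γ) +
        Real.log ‖meromorphicTrailingCoeffAt L (σ : ℂ)‖ -
          Real.pi * zerosRight L σ * Complex.I)) =O[atTop] (fun T : ℝ => 1 / T)) ∧
    (∀ z : ℂ, |z.re| < 1 / 2 → ∃ c : ℂ,
      (fun T : ℝ => W χ lam γ (1 + δ - (starRingEnd ℂ) z) T - W χ lam γ (z - δ) T -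
        (signs μ z * Real.log T + c)) =O[atTop] (fun T : ℝ => 1 / T)) ∧
    Tendsto (test χ lam δ γ) atTop (𝓝 (if μ < 1 / 4 then 2 else 0)) ∧
    List.TFAE [
      1 / 4 ≤ μ,
      ∀ σ : ℝ, 0 < σ → σ < 1 / 2 → ∃ c : ℂ, Tendsto
        (fun T : ℝ => W χ lam γ (1 + δ - σ) T - W χ lam γ (σ - δ) T) atTop (𝓝 c),
      ∀ σ : ℝ, 0 < σ → σ < 1 / 2 → ∃ (t : ℕ → ℝ) (B : ℝ), Tendsto t atTop atTop ∧
        ∀ k, ‖W χ lam γ (1 + δ - σ) (t k) - W χ lam γ (σ - δ) (t k)‖ ≤ B,
      Tendsto (test χ lam δ γ) atTop (𝓝 0),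
      ∃ t : ℕ → ℝ, Tendsto t atTop atTop ∧ Tendsto (fun k => test χ lam δ γ (t k)) atTop (𝓝 0)] := by
  obtain ⟨ν, hν2, hνr, hνi, hν0⟩ := exists_nu hf.pos
  have hδ : δ ≤ 1 := by rcases hf.zero_or_one with h | h <;> omega
  obtain ⟨L, M, P⟩ := (core hf).pkg hδ hν2
  have hN : (0 : ℝ) < (N : ℝ) := by exact_mod_cast Nat.pos_of_ne_zero (NeZero.ne N)
  have hW : ∀ (s : ℂ) (T : ℝ), W χ lam γ s T = ∑' x, Pool.Agent.N41.RM.cterm
      Pool.Agent.N41.SE.qp (fun p : Nat.Primes =>
        Pool.Agent.N41.SE.sat (lam p) (χ ((p : ℕ) : ZMod N))) s γ T x := fun s T =>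
    tsum_congr fun x => term_eq χ lam γ s T x
  have hV : ∀ σ T : ℝ, V χ lam γ σ T = ∑' x, Pool.Agent.N41.SE.vterm lam
      (fun p => χ (p : ZMod N)) γ σ T x := fun σ T =>
    tsum_congr fun x => realTerm_eq χ lam γ σ T x
  have hlaw : ∀ s : ℂ, ∃ (n : ℤ) (ℓ : ℂ), meromorphicOrderAt L s = n ∧
      Complex.exp ℓ = meromorphicTrailingCoeffAt L s ∧
      (fun T : ℝ => W χ lam γ s T - (-n * (Real.log T - Lam γ) + ℓ)) =O[atTop]
        (fun T : ℝ => 1 / T) := by
    intro s
    obtain ⟨n, ℓ, h1, h2, h3⟩ := P.law hγ s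
    refine ⟨n, ℓ, h1, h2, h3.congr_left fun T => ?_⟩
    rw [hW]
    rfl
  have hvlaw : ∀ σ : ℝ, (fun T : ℝ => V χ lam γ σ T -
      (((-mult L (σ : ℂ) : ℤ) : ℂ) * (Real.log T - Lam γ) +
      (Real.log ‖meromorphicTrailingCoeffAt L (σ : ℂ)‖ -
        Real.pi * zerosRight L σ * Complex.I))) =O[atTop] (fun T : ℝ => 1 / T) := by
    intro σ
    refine (P.vlaw hγ σ).congr_left fun T => ?_
    rw [hV]
    rfl
  -- the eigenvalue
  have hA : ∀ z : ℂ, |z.re| < 1 / 2 → ∃ c : ℂ,
      (fun T : ℝ => W χ lam γ (1 + δ - (starRingEnd ℂ) z) T - W χ lam γ (z - δ) T -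
        (signs μ z * Real.log T + c)) =O[atTop] (fun T : ℝ => 1 / T) := by
    intro z hz
    obtain ⟨n1, ℓ1, a1, -, a3⟩ := hlaw (1 + δ - (starRingEnd ℂ) z)
    obtain ⟨n2, ℓ2, b1, -, b3⟩ := hlaw (z - δ)
    have h1 := P.eigen hN hνr hz
    rw [Pool.Agent.N41.SE.oo_eq a1, Pool.Agent.N41.SE.oo_eq b1, ← signs_eq hν2] at h1
    have h2 : ((signs μ z : ℕ) : ℂ) = (n2 : ℂ) - n1 := by exact_mod_cast h1.symm
    refine ⟨-(n2 - n1) * Lam γ + ℓ1 - ℓ2, (a3.sub b3).congr_left fun T => ?_⟩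
    rw [h2]
    ring
  -- the count
  have hre : ∀ σ : ℝ, Tendsto (fun T : ℝ => (V χ lam γ σ T).re / Real.log T) atTop
      (𝓝 ((-mult L (σ : ℂ) : ℤ) : ℝ)) := fun σ => Pool.Agent.N41.RM.re_of_law (hvlaw σ)
  have him : ∀ σ : ℝ, Tendsto (fun T : ℝ => (V χ lam γ σ T).im +
      (Lam γ).im * ((V χ lam γ σ T).re / Real.log T)) atTop
        (𝓝 (-(Real.pi * zerosRight L σ))) := by
    intro σ
    have h1 := Pool.Agent.N41.RM.im_of_law (hvlaw σ)
    have h2 : ∀ (x : ℝ) (n : ℤ), ((x : ℂ) - Real.pi * n * Complex.I).im = -(Real.pi * n) := by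
      intro x n
      simp
    rw [h2] at h1
    exact h1
  obtain ⟨c1, c2⟩ := P.count hN hνr
  have c3 : zerosRight L (-1 - δ) = 2 * zerosRight L (1 / 2) + mult L ((1 / 2 : ℝ) : ℂ) +
      (if ν.im = 0 then 2 else 0) := c1
  have c4 : mult L ((-1 - δ : ℝ) : ℂ) = 0 := c2
  have c5 : mult L ((-δ : ℝ) : ℂ) - mult L ((1 + δ : ℝ) : ℂ) = if μ = 1 / 4 then 2 else 0 := by
    have h1 := P.eigen hN hνr (z := 0) (by simp)
    rw [← signs_eq hν2] at h1
    have e1 : (0 : ℂ) - δ = ((-δ : ℝ) : ℂ) := by push_cast; ring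
    have e2 : (1 : ℂ) + δ - (starRingEnd ℂ) 0 = ((1 + δ : ℝ) : ℂ) := by
      rw [map_zero]; push_cast; ring
    rw [e1, e2] at h1
    have h2 : (signs μ 0 : ℤ) = if μ = 1 / 4 then 2 else 0 := by
      unfold signs
      have h3 : ((1 : ℂ) / 4 - 0 ^ 2 = (μ : ℂ)) ↔ μ = 1 / 4 := by
        constructor
        · intro h
          have : (μ : ℂ) = ((1 / 4 : ℝ) : ℂ) := by rw [← h]; push_cast; ring
          exact_mod_cast this
        · intro h
          rw [h]
          push_cast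
          ring
      by_cases h : μ = 1 / 4
      · rw [if_pos (h3.2 h), if_pos h]; simp
      · rw [if_neg (fun h4 => h (h3.1 h4)), if_neg h]; simp
    rw [h2] at h1
    exact h1
  have hpi : Real.pi ≠ 0 := Real.pi_ne_zero
  have hB : Tendsto (test χ lam δ γ) atTop (𝓝 (if μ < 1 / 4 then 2 else 0)) := by
    have l1 := (him (1 / 2)).const_mul 2
    have l2 := him (-1 - δ)
    have l3 := (hre (-1 - δ)).const_mul (Lam γ).im
    have l4 := (hre (1 / 2)).const_mul Real.pi
    have l5 := hre (-δ)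
    have l6 := hre (1 + δ)
    have l7 := (((l1.sub (l2.sub l3)).add l4).div_const Real.pi).add (l5.sub l6)
    have e : (2 * -(Real.pi * (zerosRight L (1 / 2) : ℝ)) -
        (-(Real.pi * (zerosRight L (-1 - δ) : ℝ)) -
          (Lam γ).im * ((-mult L ((-1 - δ : ℝ) : ℂ) : ℤ) : ℝ)) +
        Real.pi * ((-mult L ((1 / 2 : ℝ) : ℂ) : ℤ) : ℝ)) / Real.pi +
        (((-mult L ((-δ : ℝ) : ℂ) : ℤ) : ℝ) - ((-mult L ((1 + δ : ℝ) : ℂ) : ℤ) : ℝ)) =
        if μ < 1 / 4 then 2 else 0 := by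
      rw [c3, c4]
      have h1 : (((-mult L ((-δ : ℝ) : ℂ) : ℤ) : ℝ) - ((-mult L ((1 + δ : ℝ) : ℂ) : ℤ) : ℝ)) =
          -((if μ = 1 / 4 then 2 else 0 : ℤ) : ℝ) := by
        rw [← c5]
        push_cast
        ring
      rw [h1]
      have h2 : ((if ν.im = 0 then 2 else 0 : ℤ) : ℝ) - ((if μ = 1 / 4 then 2 else 0 : ℤ) : ℝ) =
          if μ < 1 / 4 then 2 else 0 := by
        rcases lt_trichotomy μ (1 / 4) with h | h | h
        · rw [if_pos (hνi.2 h.le), if_neg h.ne, if_pos h]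
          norm_num
        · rw [if_pos (hνi.2 h.le), if_pos h, if_neg (by linarith)]
          norm_num
        · rw [if_neg (fun h3 => by have := hνi.1 h3; linarith), if_neg h.ne', if_neg (by linarith)]
          norm_num
      rw [← h2]
      push_cast
      field_simp
      ring
    rw [e] at l7
    refine l7.congr fun T => ?_
    unfold test
    ring
  have hseq : Tendsto (fun k : ℕ => (k : ℝ)) atTop atTop := tendsto_natCast_atTop_atTop
  refine ⟨fun s T hT => ?_, fun σ T hT => ?_, ⟨L, ⟨P.diff, P.euler⟩, hlaw, fun σ => ?_⟩, hA, hB, ?_⟩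
  · refine (P.ce.cterm_summable s γ hT).congr fun x => ?_
    rw [term_eq]
  · refine (P.vterm_summable γ σ hT).congr fun x => ?_
    rw [realTerm_eq]
  · refine (hvlaw σ).congr_left fun T => ?_
    push_cast
    ring
  · tfae_have 1 → 2 := by
      intro h σ h1 h2
      obtain ⟨c, hc⟩ := hA σ (by rw [Complex.ofReal_re, abs_of_pos h1]; exact h2)
      have h3 : signs μ (σ : ℂ) = 0 := by
        rw [signs_real h1, if_neg]
        intro h4
        have : 0 < σ ^ 2 := by positivity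
        linarith
      refine ⟨c, ?_⟩
      rw [h3, Complex.conj_ofReal] at hc
      have h4 : Tendsto (fun T : ℝ => W χ lam γ (1 + δ - σ) T - W χ lam γ (σ - δ) T -
          (((0 : ℕ) : ℂ) * Real.log T + c)) atTop (𝓝 0) :=
        hc.trans_tendsto (tendsto_const_nhds.div_atTop tendsto_id)
      have h5 := h4.add_const c
      rw [zero_add] at h5
      refine h5.congr fun T => ?_
      push_cast
      ring
    tfae_have 2 → 3 := by
      intro h σ h1 h2
      obtain ⟨c, hc⟩ := h σ h1 h2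
      have h3 := hc.comp hseq
      obtain ⟨B, hB⟩ := (Metric.isBounded_range_of_tendsto _ h3).exists_norm_le
      exact ⟨fun k => k, B, hseq, fun k => hB _ ⟨k, rfl⟩⟩
    tfae_have 3 → 1 := by
      intro h
      by_contra hcon
      rw [not_le] at hcon
      have hσ0 : 0 < Real.sqrt (1 / 4 - μ) := Real.sqrt_pos.2 (by linarith)
      have hσ1 : Real.sqrt (1 / 4 - μ) < 1 / 2 := by
        rw [Real.sqrt_lt' (by norm_num)]
        have := hf.pos
        linarith
      have hσ2 : Real.sqrt (1 / 4 - μ) ^ 2 = 1 / 4 - μ := Real.sq_sqrt (by linarith)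
      set σ : ℝ := Real.sqrt (1 / 4 - μ) with hσ
      obtain ⟨c, hc⟩ := hA σ (by rw [Complex.ofReal_re, abs_of_pos hσ0]; exact hσ1)
      rw [signs_real hσ0, if_pos (by linarith), Complex.conj_ofReal] at hc
      obtain ⟨t, B, ht, hB2⟩ := h σ hσ0 hσ1
      have h4 : Tendsto (fun T : ℝ => W χ lam γ (1 + δ - σ) T - W χ lam γ (σ - δ) T -
          (((1 : ℕ) : ℂ) * Real.log T + c)) atTop (𝓝 0) :=
        hc.trans_tendsto (tendsto_const_nhds.div_atTop tendsto_id)
      obtain ⟨B', hB'⟩ := (Metric.isBounded_range_of_tendsto _ (h4.comp ht)).exists_norm_le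
      have h5 : ∀ k, |Real.log (t k)| ≤ B' + B + ‖c‖ := by
        intro k
        have h6 := hB' _ ⟨k, rfl⟩
        have h7 := hB2 k
        simp only [Function.comp_apply] at h6
        have h8 : (Real.log (t k) : ℂ) = -(W χ lam γ (1 + δ - σ) (t k) - W χ lam γ (σ - δ) (t k) -
          (((1 : ℕ) : ℂ) * Real.log (t k) + c)) + (W χ lam γ (1 + δ - σ) (t k) -
            W χ lam γ (σ - δ) (t k)) - c := by
          push_cast
          ring
        rw [← Real.norm_eq_abs, ← Complex.norm_real, h8]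
        refine (norm_sub_le _ _).trans ?_
        gcongr
        refine (norm_add_le _ _).trans ?_
        rw [norm_neg]
        exact add_le_add h6 h7
      have h9 := (Real.tendsto_log_atTop.comp ht).eventually_gt_atTop (B' + B + ‖c‖)
      obtain ⟨k, hk⟩ := h9.exists
      have h10 := (abs_le.1 (h5 k)).2
      simp only [Function.comp_apply] at hk
      linarith
    tfae_have 1 → 4 := by
      intro h
      rw [if_neg (by linarith)] at hB
      exact hB
    tfae_have 4 → 5 := fun h => ⟨fun k => k, hseq, h.comp hseq⟩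
    tfae_have 5 → 1 := by
      rintro ⟨t, ht, h⟩
      by_contra hcon
      rw [not_le] at hcon
      rw [if_pos hcon] at hB
      have := tendsto_nhds_unique h (hB.comp ht)
      norm_num at this
    tfae_finish

end Pool.Agent.Results.MP_a812b2_nt.EigenvalueFromPrimes
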