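import Mathlib
import Pool.Agent.N678.IH.Final

/-!
# Selberg's conjecture and integral Hecke eigenvalues

A Maass form `f` whose Hecke eigenvalues are rational integers (with the trivial character) comes from a Galois
representation with finite image, and so satisfies Selberg's conjecture (Sarnak); the same was shown by Brumley for
quadratic integers, if the conjugate of `f` is a Maass form as well. For other number fields, and for fields of
unbounded degree, nothing was known. We show:

**Let `F` be a totally real number field which contains neither `√3` nor `√5` (for example any totally real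
field of odd degree). Let `π_σ`, `σ` running through the embeddings of `F`, be cuspidal automorphic
representations of `GL(2)` over a number field `K`, none of them dihedral, tetrahedral or octahedral. Then there is no
family of algebraic integers `a_v` of `F` such that `σ(a_v)` is the (normalised) Hecke eigenvalue of `π_σ` at `v` for all
`σ`, for more than `7/8` of the places `v`.**

Hence a Maass form for a congruence subgroup of `SL₂(ℤ)` with Hecke eigenvalues in the ring of integers of `F`, whose
conjugates are Hecke eigenvalues of Maass forms as well, is dihedral, tetrahedral or octahedral, and so has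
`λ ≥ 1/4`: an exceptional eigenvalue `0 < λ < 1/4` never belongs to a form of this kind. With nontrivial characters
the fields `F` are CM fields; here `√3 ∉ F` is replaced by the condition that `3` is not of the form `x c(x)`, `x ∈ F`, `c`
the complex conjugation.

More generally let `π_1, ..., π_m` be any cuspidal representations of `GL(2)` over `K`, not dihedral, tetrahedral or
octahedral, with normalised Hecke eigenvalues `a_i(v)`. Then **the polynomial `∏ (X - |a_i(v)|²)` has integral coefficients
and none of the roots `3`, `(3 ± √5)/2`, for at most `7/8` of the places `v`**. The exceptions `3` and `(3 ± √5)/2` cannot be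
avoided by such methods: an icosahedral representation has the values `|a_v|² ∈ {0, 1, 4, (3 ± √5)/2}`, and the
first four moments of `|a_v|²` are those of the distribution with the values `0, 1, 3` and the frequencies
`1/3, 1/2, 1/6`.

`Family` (for a single form: `ι = Fin 1`) is what is used of the `π_i`; it is known for the representations which are
not dihedral, tetrahedral or octahedral: the representations `1`, `Ad π` and `A⁴ π = Sym⁴ π ⊗ ω^{-2}` are unitary
cuspidal representations of `GL(1)`, `GL(3)` and `GL(5)` (Gelbart and Jacquet; Kim; Kim and Shahidi), the local components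
are unitary, and the Rankin-Selberg `L`-functions of pairs of these representations have the usual properties
(Jacquet, Piatetski-Shapiro, Shalika; Shahidi; Moeglin, Waldspurger).

Proof. Let `t_i = |a_i(v)|²`. The mean value over `v` of a polynomial of degree at most four in `t_i` is given by `Ad` and
`A⁴` (for a polynomial which is bounded below there is an inequality, which does not need bounds for the prime powers).
There is a polynomial `F(t)` of degree four with the mean value `-1/8`, with `F ≥ -1` and
`F(t) ≥ 0.465 log |t| + 0.526 log |t - 1| + 1.066 log |t - 3| + 1.54 log |t² - 3t + 1|` for all `t ≥ 0`, `F(0) = F(1) = 0`. If the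
polynomial with the roots `t_i` is integral, then `∏ |Q(t_i)| ≥ 1` for every integral polynomial `Q` which does not
vanish at any `t_i`; so `∑ F(t_i) ≥ 0` (if a `t_i` is `0` or `1`, it can be removed). This is the method of auxiliary
functions (Smyth) for the trace problem for totally positive algebraic integers. The inequality for `F` is proved by a
subdivision into 36 intervals.
-/

set_option autoImplicit false

namespace Pool.Agent.Results.MP_a812b2_nt.IntegralEigenvalues

open NumberField IsDedekindDomain Pool.Agent.N678.PG Pool.Agent.N678.IH Pool.Agent.R398.AS

/-- **Forms on `GL(2)` with integral Hecke eigenvalues.** -/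
theorem result {K : Type} [Field K] [NumberField K] {S : Finset (HeightOneSpectrum (𝓞 K))} {m : ℕ} (hm : 0 < m)
    {α : Fin m → HeightOneSpectrum (𝓞 K) → Fin 2 → ℂ} (h : ∀ i, Family S (fun _ : Fin 1 => α i)) :
    UpperDensityLe S (fun v => Integral α v ∧ ∀ i, ‖∑ j, α i v j‖ ^ 2 ≠ 3 ∧
      ‖∑ j, α i v j‖ ^ 4 - 3 * ‖∑ j, α i v j‖ ^ 2 + 1 ≠ 0) (7 / 8) ∧
    ∀ (F : Type) [Field F] [NumberField F] (c : F ≃+* F),
      (∀ (σ : F →+* ℂ) (x : F), (starRingEnd ℂ) (σ x) = σ (c x)) → (∀ x : F, x * c x ≠ 3) → (∀ x : F, x ^ 2 ≠ 5) →
      ∀ (e : Fin m ≃ (F →+* ℂ)) (a : HeightOneSpectrum (𝓞 K) → 𝓞 F),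
        UpperDensityLe S (fun v => ∀ i, ∑ j, α i v j = e i (a v)) (7 / 8) := by
  have h1 := good_le hm h
  refine ⟨h1.mono (fun v _ hv => ⟨hv.1, fun i => ⟨(hv.2 i).1, ?_⟩⟩) le_rfl, ?_⟩
  · have := (hv.2 i).2
    unfold zz
    rwa [← pow_mul]
  · intro F _ _ c hc h3 h5 e a
    refine h1.mono (fun v _ hv => ⟨integral_of_field hc e hv, fun i => ⟨fun hz => ?_, fun hz => ?_⟩⟩) le_rfl
    · have := (eq_of_field hc (e i) (hv i) 3).1 (by exact_mod_cast hz)
      exact h3 _ (by exact_mod_cast this)
    · have := (gold_of_field hc (e i) (hv i)).1 hz
      exact h5 (2 * ((a v : F) * c (a v)) - 3) (by linear_combination 4 * this)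

end Pool.Agent.Results.MP_a812b2_nt.IntegralEigenvalues
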