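import Pool.Agent.N210.FW.Thm

/-!
# Maass newforms with few Hecke eigenvalues have eigenvalue `1/4`

Let `f` be a Maass newform of weight `0`, trivial nebentypus and any level, with Laplace eigenvalue
`λ = 1/4 - r²` (so `r` is purely imaginary or `0 < |r| < 1/2` or `r = 0`), `S` a finite set of primes containing
the divisors of the level, `a_p = α_p + α_p⁻¹` the normalised Hecke eigenvalues.

**Theorem.** If `λ ≠ 1/4` then the numbers `a_p` take at least nine different values, and this remains so when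
any finite set of primes is removed. More generally there are at least `K + 1` values if the Euler products
`L(s, Sym^k f)`, `k ≤ K`, have meromorphic continuations with the expected functional equation which are quotients
of entire functions of order at most `3/2`; nothing is required at `s = 1` or in the critical strip. For `K = 8`
this is known: `L(s, Sym^5) = L(s, Sym^4 × Sym^1) / L(s, Sym^3)`,
`L(s, Sym^6) = L(s, Sym^3 × Sym^3) / L(s, Sym^2 × Sym^2)`, `L(s, Sym^7) = L(s, Sym^4 × Sym^3) / L(s, Sym^3 × Sym^2)`,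
`L(s, Sym^8) = L(s, Sym^4 × Sym^4) / L(s, Sym^3 × Sym^3)`, and `Sym^k f`, `k ≤ 4`, is automorphic (Gelbart-Jacquet,
Kim-Shahidi, Kim); the Rankin-Selberg functions are holomorphic up to poles at `s = 1`, of order one.

So a Maass newform with at most eight different Hecke eigenvalues (outside some finite set of primes) has
`λ = 1/4`: Selberg's conjecture holds for it, and it has the eigenvalue predicted for forms of Galois type. No
integrality or algebraicity of the `a_p` is assumed and no bound towards the Ramanujan conjecture is used. The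
forms of icosahedral type (`λ = 1/4`, the binary icosahedral group) have exactly nine values
`0, ±1, ±2, (±1 ± √5)/2`.

Idea: if the `a_p` lie in a set of `K` numbers then `∑_{k ≤ K} c_k Sym^k(α_p) = 0` for real `c_k`, not all zero; then
`∑ c_k L'/L(s, Sym^k f)` is holomorphic for `Re s > 1/2`, its residues on `Re s = 1/2` are square summable, and the
functional equation forces all coefficients, and then the same combination of the gamma factors, to vanish.
-/

set_option autoImplicit false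

open Filter Topology

namespace Pool.Agent.Results.MP_a812b2_nt.NineHeckeEigenvalues

/-- `∏_{0 ≤ i ≤ k} Γ_ℝ(s + r (k - 2 i) + δ)⁻¹`, `Γ_ℝ(s) = π^{-s/2} Γ(s/2)`: the inverse of the gamma factor of
`Sym^k f`; `δ = 0` if `f` or `k` is even and `δ = 1` otherwise. -/
noncomputable def invGamma (r : ℂ) (k δ : ℕ) (s : ℂ) : ℂ :=
  (((List.range (k + 1)).map fun i : ℕ => r * ((k : ℂ) - 2 * i) + δ).map
    fun m => (Complex.Gammaℝ (s + m))⁻¹).prod

/-- `∏_{(p, b) ∈ l} (1 - b p^{-s})` -/
noncomputable def finEuler (l : List (ℕ × ℂ)) (s : ℂ) : ℂ :=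
  (l.map fun x => 1 - x.2 * (x.1 : ℂ) ^ (-s)).prod

/-- What is used of the `L`-function `N/D` with the Euler product
`∏_{p ∉ S} ∏_{0 ≤ i ≤ k} (1 - α_p^{k - 2 i} p^{-s})⁻¹`. -/
structure SymmetricPowerL (S : Finset ℕ) (α : ℕ → ℂ) (r : ℂ) (k : ℕ) (N D : ℂ → ℂ) : Prop where
  /-- `N` is entire -/
  entire_N : Differentiable ℂ N
  /-- `D` is entire -/
  entire_D : Differentiable ℂ D
  /-- `N` and `D` are of order at most `3/2` -/
  order : ∃ C : ℝ, ∀ s, ‖N s‖ ≤ Real.exp (C * (1 + ‖s‖) ^ (3 / 2 : ℝ)) ∧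
    ‖D s‖ ≤ Real.exp (C * (1 + ‖s‖) ^ (3 / 2 : ℝ))
  /-- `D` has no zeros in `Re s > 1` -/
  ne_zero : ∀ s : ℂ, 1 < s.re → D s ≠ 0
  /-- the partial Euler products converge to `N/D` in `Re s > 1` -/
  euler : ∀ s : ℂ, 1 < s.re → Tendsto (fun X : ℕ =>
    ∏ p ∈ (Finset.range X).filter (fun p => p.Prime ∧ p ∉ S),
      ∏ i ∈ Finset.range (k + 1), (1 - α p ^ ((k : ℤ) - 2 * i) * (p : ℂ) ^ (-s))⁻¹) atTop
      (𝓝 (N s / D s))
  /-- functional equation: with
  `Λ(s) = q^s · (invGamma r k δ s)⁻¹ · finEuler l' s / finEuler l s · N s / D s` it says `Λ(s) = ε Λ(1 - s)` -/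
  functional : ∃ (δ : ℕ) (l l' : List (ℕ × ℂ)) (q : ℝ) (ε : ℂ), δ ≤ 1 ∧ 0 < q ∧ ε ≠ 0 ∧
    (∀ x ∈ l, x.1.Prime ∧ x.1 ∈ S) ∧ (∀ x ∈ l', x.1.Prime ∧ x.1 ∈ S) ∧
    ∀ s, (q : ℂ) ^ s * invGamma r k δ (1 - s) * finEuler l (1 - s) * finEuler l' s *
        (N s * D (1 - s)) =
      ε * (q : ℂ) ^ (1 - s) * invGamma r k δ s * finEuler l s * finEuler l' (1 - s) *
        (N (1 - s) * D s)

/-- **At least `K + 1` Hecke eigenvalues if `λ ≠ 1/4`**; `K = 8` is unconditional. -/
theorem result {S : Finset ℕ} {α : ℕ → ℂ} {a : ℕ → ℝ} {r : ℂ} {K : ℕ} {N D : ℕ → ℂ → ℂ}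
    (hr : r ≠ 0)
    (hα : ∀ p : ℕ, p.Prime → p ∉ S → α p ≠ 0)
    (ha : ∀ p : ℕ, p.Prime → p ∉ S → α p + (α p)⁻¹ = a p)
    (hL : ∀ k ≤ K, SymmetricPowerL S α r k (N k) (D k)) (T : Finset ℕ) :
    ((K + 1 : ℕ) : ℕ∞) ≤ (a '' {p : ℕ | p.Prime ∧ p ∉ T}).encard := by
  classical
  by_contra hcon
  push Not at hcon
  have hfin : (a '' {p : ℕ | p.Prime ∧ p ∉ T}).Finite :=
    Set.finite_of_encard_le_coe (k := K + 1) hcon.le
  have hcard : hfin.toFinset.card ≤ K := by
    rw [hfin.encard_eq_coe_toFinset_card] at hcon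
    have h1 : hfin.toFinset.card < K + 1 := by exact_mod_cast hcon
    omega
  have hinf := Pool.Agent.N210.FW.main2 hr hα ha
    (fun k hk => by
      have h := hL k hk
      exact ⟨h.entire_N, h.entire_D, h.order, h.ne_zero, h.euler, h.functional⟩)
    hfin.toFinset hcard
  obtain ⟨p, hp, hpT⟩ := hinf.exists_notMem_finset T
  apply hp.2.2
  rw [Set.Finite.mem_toFinset]
  exact ⟨p, ⟨hp.1, hpT⟩, rfl⟩

end Pool.Agent.Results.MP_a812b2_nt.NineHeckeEigenvalues
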